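import Pool.Agent.H973.SR.Fp
import Pool.Agent.H973.SR.Alloc
import Pool.Agent.H973.SR.Hall
import Pool.Agent.H973.SR.Pack0
import Pool.Agent.H973.SR.Tight
import Pool.Agent.H973.SR.Pack
import Pool.Agent.H973.SR.Parent
import Pool.Agent.H973.SR.Tree
import Pool.Agent.H973.SR.Case0
import Pool.Agent.H973.SR.Case1
import Pool.Agent.H973.SR.Serve
import Pool.Agent.H973.SR.Close
import Pool.Agent.H973.SR.Case2
import Pool.Agent.H973.SR.Wit
import Pool.Agent.H973.SR.Num1
import Pool.Agent.H973.SR.Num2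
import Pool.Agent.H973.SR.Num4
import Pool.Agent.H973.SR.Num3
import Pool.Agent.H973.SR.Bad1
import Pool.Agent.H973.SR.Bad2
import Pool.Agent.H973.SR.Bad4
import Pool.Agent.H973.SR.Bad3
import Pool.Agent.H973.SR.Host
import Pool.Agent.H973.SR.Emb0
import Pool.Agent.H973.SR.Emb1
import Pool.Agent.H973.SR.Emb2
import Pool.Agent.H973.SR.Arr
import Pool.Agent.H973.SR.Final

/-!
# Multicolour size-Ramsey numbers of trees (MP_366c56_co, Q1)

There is an absolute constant `C` such that for every `r ≥ 2` and every tree `T` (on at least two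
vertices) the `r`-colour size-Ramsey number satisfies `R_r(T) ≤ C r² (log r) β(T)`, where
`β(T) = n₁ Δ₁ + n₂ Δ₂`.
-/

namespace Pool.Agent.Results.MP_366c56_co.SizeRamseyTrees

open Finset

/-- `G → (T)_r`: every colouring of the edges of `G` with `r` colours contains a monochromatic copy
of `T` (a not necessarily induced subgraph isomorphic to `T`, all of whose edges have one
colour). -/
def Arrows {U V : Type} (G : SimpleGraph U) (T : SimpleGraph V) (r : ℕ) : Prop :=
  ∀ c : G.edgeSet → Fin r, ∃ (i : Fin r) (f : V → U), Function.Injective f ∧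
    ∀ a b, T.Adj a b → ∃ h : G.Adj (f a) (f b), c ⟨s(f a, f b), h⟩ = i

/-- The `r`-colour size-Ramsey number: the least number of edges of a finite graph `G` with
`G → (T)_r`. -/
noncomputable def sizeRamsey {V : Type} (T : SimpleGraph V) (r : ℕ) : ℕ :=
  sInf {m : ℕ | ∃ (n : ℕ) (G : SimpleGraph (Fin n)), G.edgeSet.ncard = m ∧ Arrows G T r}

open Classical in
/-- `β(T) = n₁ Δ₁ + n₂ Δ₂` where `V₁, V₂` are the two classes of the proper 2-colouring `κ`,
`nᵢ = |Vᵢ|` and `Δᵢ` is the largest degree of a vertex of `Vᵢ`. -/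
noncomputable def beta {n : ℕ} (T : SimpleGraph (Fin n)) (κ : Fin n → Bool) : ℕ :=
  ∑ b : Bool, (univ.filter (fun v => κ v = b)).card *
    (univ.filter (fun v => κ v = b)).sup (fun v => T.degree v)

/-- Q1 of MP_366c56_co: an absolute constant `C` works for all trees and all numbers of colours.
(The first conjunct records that the set of which `sizeRamsey` is the least element is not
empty.) -/
theorem result : ∃ C : ℝ, 0 < C ∧
    ∀ (r n : ℕ) (T : SimpleGraph (Fin n)) (κ : Fin n → Bool), 2 ≤ r → 2 ≤ n → T.IsTree →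
      (∀ x y, T.Adj x y → κ x ≠ κ y) →
      {m : ℕ | ∃ (k : ℕ) (G : SimpleGraph (Fin k)), G.edgeSet.ncard = m ∧
        Arrows G T r}.Nonempty ∧
      (sizeRamsey T r : ℝ) ≤ C * (r : ℝ) ^ 2 * Real.log r * beta T κ := by
  refine ⟨2 ^ 43, by positivity, ?_⟩
  intro r n T κ hr hn hT hκ
  have hfp : H973.SR.S_FP := H973.SR.fp
  have halloc : H973.SR.S_ALLOC := H973.SR.alloc hfp
  have hhalld : H973.SR.S_HALLD := H973.SR.halld
  have hpack0 : H973.SR.S_PACK0 := H973.SR.pack0 hhalld
  have htight : H973.SR.S_TIGHT := H973.SR.tight H973.SR.mathall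
  have hpack : H973.SR.S_PACK := H973.SR.pack htight hpack0
  have htree : H973.SR.S_TREE := H973.SR.tree H973.SR.parent
  have hcase0 : H973.SR.S_CASE0 := H973.SR.case0 htree
  have hcase1 : H973.SR.S_CASE1 := H973.SR.case1 hfp halloc htree
  have hcase2 : H973.SR.S_CASE2 :=
    H973.SR.case2 H973.SR.init (H973.SR.serve hfp) (H973.SR.close halloc hpack) htree
  have hch : H973.SR.S_CHOOSE := H973.SR.choose_bd
  have hwit : H973.SR.S_WIT := H973.SR.wit
  have hhost : H973.SR.S_HOST :=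
    H973.SR.host (H973.SR.bad1 hwit (H973.SR.num1 hch)) (H973.SR.bad2 hwit (H973.SR.num2 hch))
      (H973.SR.bad3 hwit (H973.SR.num3 hch)) (H973.SR.bad4 hwit (H973.SR.num4 hch))
  have hmain : H973.SR.S_MAIN :=
    H973.SR.main hhost (H973.SR.emb0 H973.SR.clean hcase0) (H973.SR.emb1 H973.SR.clean hcase1)
      (H973.SR.emb2 H973.SR.clean hcase2) H973.SR.arr
  obtain ⟨m, G, hG, hA⟩ := H973.SR.final hmain r n T κ hr hn hT hκ
  have hA' : Arrows G T r := hA
  have hmem : G.edgeSet.ncard ∈ {m : ℕ | ∃ (k : ℕ) (G : SimpleGraph (Fin k)),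
      G.edgeSet.ncard = m ∧ Arrows G T r} := ⟨m, G, rfl, hA'⟩
  refine ⟨⟨_, hmem⟩, ?_⟩
  have h1 : sizeRamsey T r ≤ G.edgeSet.ncard := Nat.sInf_le hmem
  have h2 : (sizeRamsey T r : ℝ) ≤ (G.edgeSet.ncard : ℝ) := by exact_mod_cast h1
  exact h2.trans hG

end Pool.Agent.Results.MP_366c56_co.SizeRamseyTrees
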